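import Pool.Agent.Helper61.FN.GoalsC

/-!
# Project FN, packet FN-C3
-/

set_option autoImplicit false

namespace Pool.Agent.Helper13.FN

open Finset Pool.Agent.Helper61.FN

section general

variable {E J F k : Type} [Fintype E] [Fintype J] [Field F] [Field k] [Algebra F k]
  {m : J → E → ℤ} {c : J → F} {d : E → F} {lam : F} {v : E → ℤ} {M : ℤ} {ξ : E → k}

/-- Two dominant monomials of the same positive growth and the same coefficient. -/
theorem two (h : Nrm m c d lam v M ξ) (w : E → F) (i i' : J) (hne : i ≠ i') (g : ℤ) (hg : 0 < g)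
    (h1 : M + gr (m i) v = g) (h2 : M + gr (m i') v = g)
    (h0 : c i * pr (m i) w ≠ 0) (h0' : c i' * pr (m i') w = c i * pr (m i) w)
    (hj : ∀ j, j ≠ i → j ≠ i' → c j * pr (m j) w ≠ 0 → M + gr (m j) v < g) :
    mon ξ (m i) + mon ξ (m i') = 0 := by
  classical
  have h3 := h.lead w g hg.le fun j hj' ↦ by
    by_cases hji : j = i
    · rw [hji, h1]
    · by_cases hji' : j = i'
      · rw [hji', h2]
      · exact (hj j hji hji' hj').le
  rw [if_neg hg.ne', sum_eq_add i i' hne] at h3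
  · rw [if_pos h1, if_pos h2, h0', ← mul_add] at h3
    exact (mul_eq_zero.1 h3).resolve_left (am_ne h0)
  · intro j _ hj2
    split_ifs with h4
    · by_cases h5 : c j * pr (m j) w = 0
      · rw [h5, map_zero, zero_mul]
      · exact absurd h4 (hj j hj2.1 hj2.2 h5).ne
    · rfl
  · intro h4
    exact (h4 (mem_univ i)).elim
  · intro h4
    exact (h4 (mem_univ i')).elim

end general

theorem mon6 {k : Type} [Field k] (x : Fin 6 → k) (m : Fin 6 → ℤ) :
    mon x m = x 0 ^ m 0 * x 1 ^ m 1 * x 2 ^ m 2 * x 3 ^ m 3 * x 4 ^ m 4 * x 5 ^ m 5 := by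
  simp [mon, Fin.prod_univ_succ, mul_assoc]

section C

variable {F k : Type} [Field F] [LinearOrder F] [IsStrictOrderedRing F] [Field k] [Algebra F k]
  {p q mu ep lam : F} {v : Fin 6 → ℤ} {M : ℤ} {ξ : Fin 6 → k}

theorem p0 (h : ParC p q mu ep) : 0 < p := lt_of_lt_of_le one_pos h.p1

theorem q0 (h : ParC p q mu ep) : 0 < q := lt_of_lt_of_le one_pos h.q1

theorem K0 (h : ParC p q mu ep) : 0 < 2 * p + 2 * q + mu + 2 * ep := by
  have h1 := p0 h
  have h2 := h.ch0
  have h3 := h.mu0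
  linarith

/-- `M` is less than the maximum. -/
theorem Mlt (h : NC p q mu ep lam v M ξ) (h2 : v 2 = 0) (h3 : v 3 = 0) (h1 : v 1 = v 0)
    (B : ℤ) (hB : 0 < B) (h0 : v 0 ≤ B) (h4 : v 4 ≤ B) (h5 : v 5 ≤ B) : M < B := by
  by_contra hc
  have hp := p0 h.par
  have hq := q0 h.par
  have hm := h.par.mu0
  have hs := h.sm
  rw [h1, h2, h3] at hs
  have hB' : (0 : F) < B := by exact_mod_cast hB
  have hM : (B : F) ≤ M := by exact_mod_cast not_lt.1 hc
  have e0 : (v 0 : F) ≤ M := le_trans (by exact_mod_cast h0) hM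
  have e4 : (v 4 : F) ≤ M := le_trans (by exact_mod_cast h4) hM
  have e5 : (v 5 : F) ≤ M := le_trans (by exact_mod_cast h5) hM
  have hM0 : (0 : F) < M := lt_of_lt_of_le hB' hM
  have f0 := mul_le_mul_of_nonneg_left e0 (mul_pos hp hq).le
  have f4 := mul_le_mul_of_nonneg_left e4 (mul_pos hp hm).le
  have f5 := mul_le_mul_of_nonneg_left e5 (mul_pos hq hm).le
  have f1 := mul_pos hM0 (mul_pos hp h.par.ph0)
  have f2 := mul_pos hM0 (mul_pos hq h.par.ch0)
  simp only [Int.cast_zero, mul_zero, add_zero] at hs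
  nlinarith

/-- The case `b1 > α, b2`. -/
theorem caseIII (h : NC p q mu ep lam v M ξ) (h2 : v 2 = 0) (h3 : v 3 = 0) (h1 : v 1 = v 0)
    (h5 : 0 < v 5) (t0 : v 0 < v 4 + v 5) (t1 : v 4 < v 0 + v 5)
    (t2 : v 5 < v 0 + v 4) (hX : ξ 0 + ξ 1 ≠ 0) (hm0 : v 0 < v 4) (hm5 : v 5 < v 4) : False := by
  have hp := p0 h.par
  have hq := q0 h.par
  have hm := h.par.mu0
  have hK := K0 h.par
  have x0 := h.nrm.ne 0
  have x1 := h.nrm.ne 1
  have x4 := h.nrm.ne 4
  have x5 := h.nrm.ne 5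
  have g1 : M + gr (mC 5) v = 0 := by
    refine h.nrm.dm0 ![0, 0, 0, 0, 1, 1] ?_ 5 ?_ fun j hj5 hj ↦ ?_
    · simp [Fin.sum_univ_succ, dC]
      positivity
    · rw [pr6]
      simp [mC, cC]
      exact ⟨⟨hq.ne', hm.ne'⟩, hK.ne'⟩
    · rw [gr6, gr6]
      rw [pr6] at hj
      fin_cases j <;> simp [mC] at hj hj5 ⊢ <;> omega
  rw [gr6] at g1
  simp [mC] at g1
  have g2 : M = v 0 := by
    rcases lt_trichotomy M (v 0) with g3 | g3 | g3
    · refine (h.nrm.neg ![1, 1, 0, 0, 1, 0] ?_ fun j hj ↦ ?_).elim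
      · simp [Fin.sum_univ_succ, dC]
        positivity
      · rw [gr6]
        rw [pr6] at hj
        fin_cases j <;> simp [mC] at hj ⊢ <;> omega
    · exact g3
    · exfalso
      have g4 := two h.nrm ![1, 1, 0, 0, 1, 0] 0 1 (by decide) (M - v 0) (by omega)
        (by rw [gr6]; simp [mC]; omega) (by rw [gr6]; simp [mC]; omega)
        (by rw [pr6]; simp [mC, cC]; exact ⟨⟨hp.ne', hq.ne'⟩, hK.ne'⟩)
        (by rw [pr6, pr6]; simp [mC, cC]) fun j hj0 hj1 hj ↦ by
          rw [gr6]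
          rw [pr6] at hj
          fin_cases j <;> simp [mC] at hj hj0 hj1 ⊢ <;> omega
      rw [mon6, mon6] at g4
      simp [mC] at g4
      refine hX ?_
      field_simp at g4
      linear_combination g4
  have g4 := two h.nrm ![1, 1, 0, 0, 0, 1] 7 10 (by decide) (v 4 - M) (by omega)
    (by rw [gr6]; simp [mC]; omega) (by rw [gr6]; simp [mC]; omega)
    (by rw [pr6]; simp [mC, cC, hp.ne', hq.ne', hm.ne'])
    (by rw [pr6, pr6]; simp [mC, cC]) fun j hj0 hj1 hj ↦ by
      rw [gr6]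
      rw [pr6] at hj
      fin_cases j <;> simp [mC] at hj hj0 hj1 ⊢ <;> omega
  rw [mon6, mon6] at g4
  simp [mC] at g4
  refine hX ?_
  field_simp at g4
  rw [mul_zero, mul_eq_zero] at g4
  rw [add_comm]
  exact g4.resolve_left x4

end C

/-- **FN-C3**. -/
theorem goalC3 (hCR : G_CR) (hCST : G_CST) (hCTA : G_CTA) : G_C3 := by
  intro F k _ _ _ _ _ p q mu ep lam v M ξ h h2 h3 h1 h0 h4 h5
  have hX := (hCR F k p q mu ep lam v M ξ h h2 h1 h0 h4).2
  obtain ⟨t0, t1, t2⟩ := hCST F k p q mu ep lam v M ξ h h2 h1 h0 h4 h5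
  have hp := p0 h.par
  have hq := q0 h.par
  have hm := h.par.mu0
  have hK := K0 h.par
  rcases lt_trichotomy (v 0) (v 4) with c1 | c1 | c1
  · rcases lt_trichotomy (v 4) (v 5) with c2 | c2 | c2
    · -- the case `b2 > α, b1`
      exact caseIII (hCTA F k p q mu ep lam v M ξ h) h3 h2 h1 h4 (by simpa [ta, add_comm] using t0)
        t2 t1 hX (c1.trans c2) c2
    · -- `b1 = b2`
      have hM := Mlt h h2 h3 h1 (v 4) h4 c1.le le_rfl c2.ge
      refine h.nrm.neg ![0, 0, 0, 0, 1, 1] ?_ fun j hj ↦ ?_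
      · simp [Fin.sum_univ_succ, dC]
        positivity
      · rw [gr6]
        rw [pr6] at hj
        fin_cases j <;> simp [mC] at hj ⊢ <;> omega
    · exact caseIII h h2 h3 h1 h5 t0 t1 t2 hX c1 c2
  · rcases lt_or_ge (v 4) (v 5) with c2 | c2
    · exact caseIII (hCTA F k p q mu ep lam v M ξ h) h3 h2 h1 h4 (by simpa [ta, add_comm] using t0)
        t2 t1 hX (c1.trans_lt c2) c2
    · have hM := Mlt h h2 h3 h1 (v 0) h0 le_rfl c1.ge (c2.trans c1.ge)
      refine h.nrm.neg ![1, 1, 0, 0, 1, 0] ?_ fun j hj ↦ ?_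
      · simp [Fin.sum_univ_succ, dC]
        positivity
      · rw [gr6]
        rw [pr6] at hj
        fin_cases j <;> simp [mC] at hj ⊢ <;> omega
  · rcases lt_trichotomy (v 0) (v 5) with c2 | c2 | c2
    · exact caseIII (hCTA F k p q mu ep lam v M ξ h) h3 h2 h1 h4 (by simpa [ta, add_comm] using t0)
        t2 t1 hX c2 (c1.trans c2)
    · have hM := Mlt h h2 h3 h1 (v 0) h0 le_rfl c1.le c2.ge
      refine h.nrm.neg ![1, 1, 0, 0, 0, 1] ?_ fun j hj ↦ ?_
      · simp [Fin.sum_univ_succ, dC]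
        positivity
      · rw [gr6]
        rw [pr6] at hj
        fin_cases j <;> simp [mC] at hj ⊢ <;> omega
    · -- `α > b1, b2`
      have x0 := h.nrm.ne 0
      have x1 := h.nrm.ne 1
      have x4 := h.nrm.ne 4
      have x5 := h.nrm.ne 5
      have g1 : M + gr (mC 4) v = 0 := by
        refine h.nrm.dm0 ![1, 1, 0, 0, 1, 0] ?_ 4 ?_ fun j hj5 hj ↦ ?_
        · simp [Fin.sum_univ_succ, dC]
          positivity
        · rw [pr6]
          simp [mC, cC]
          exact ⟨⟨hp.ne', hm.ne'⟩, hK.ne'⟩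
        · rw [gr6, gr6]
          rw [pr6] at hj
          fin_cases j <;> simp [mC] at hj hj5 ⊢ <;> omega
      have g2 : M + gr (mC 5) v = 0 := by
        refine h.nrm.dm0 ![1, 1, 0, 0, 0, 1] ?_ 5 ?_ fun j hj5 hj ↦ ?_
        · simp [Fin.sum_univ_succ, dC]
          positivity
        · rw [pr6]
          simp [mC, cC]
          exact ⟨⟨hq.ne', hm.ne'⟩, hK.ne'⟩
        · rw [gr6, gr6]
          rw [pr6] at hj
          fin_cases j <;> simp [mC] at hj hj5 ⊢ <;> omega
      rw [gr6] at g1 g2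
      simp [mC] at g1 g2
      have g4 := two h.nrm ![0, 0, 0, 0, 1, 1] 6 9 (by decide) (v 0 - M) (by omega)
        (by rw [gr6]; simp [mC]; omega) (by rw [gr6]; simp [mC]; omega)
        (by rw [pr6]; simp [mC, cC, hp.ne', hq.ne', hm.ne'])
        (by rw [pr6, pr6]; simp [mC, cC]) fun j hj0 hj1 hj ↦ by
          rw [gr6]
          rw [pr6] at hj
          fin_cases j <;> simp [mC] at hj hj0 hj1 ⊢ <;> omega
      rw [mon6, mon6] at g4
      simp [mC] at g4
      refine hX ?_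
      field_simp at g4
      linear_combination g4

end Pool.Agent.Helper13.FN
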